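import Pool.Agent.helper30.PJ.COREG

/-!
# Row pj:CORE (MP_f6e9a2_nt): dense and sparse cells together
-/

set_option autoImplicit false

open Finset

namespace Pool.Agent.PJ

open Pool.Agent.PY2

theorem CORE (hPV : PV_stmt) (hDEN : DEN_stmt) (hSPA : SPA_stmt) : CORE_stmt := by
  intro ε hε hε1
  obtain ⟨κ, hκ⟩ : ∃ κ : ℝ, κ = ε / 100 := ⟨_, rfl⟩
  have hκ0 : 0 < κ := by rw [hκ]; positivity
  obtain ⟨p₀, hp₀⟩ := hPV ε hε hε1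
  obtain ⟨p₁, hp₁⟩ := hDEN κ hκ0
  obtain ⟨p₂, hp₂⟩ := hSPA κ hκ0
  obtain ⟨p₃, hp₃⟩ := COREG_large (κ / 4) 20 (by positivity)
  refine ⟨κ / 4, by positivity, p₀ + p₁ + p₂ + p₃, ?_⟩
  intro p _ hp N X Y A B hAN hN hX hY hXA hAX hYB hBY hXp hYp hmain χ hχ β hβ
  have hp1 : (1 : ℝ) ≤ p := by exact_mod_cast (Fact.out : p.Prime).one_le
  have hp0 : (0 : ℝ) < p := by linarith
  obtain ⟨s, L, hL1, hL2, hL3, h72, h2s, q1, q2, q3, q4⟩ :=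
    hp₀ p (by omega) N X Y hN hX hY hXp hYp hmain
  rw [← hκ] at q1 q2 q3 q4
  obtain ⟨E, hE⟩ : ∃ E : ℝ, E = N * (p : ℝ) ^ κ / X := ⟨_, rfl⟩
  have hE0 : 0 ≤ E := by rw [hE]; positivity
  obtain ⟨B₁, B₂, hB₁, hB₂, hsplit, hcl₁, hcl₂⟩ := COREG_split B L E hE0
  have hB₁c : (B₁.card : ℝ) ≤ B.card := by exact_mod_cast card_le_card hB₁
  have hB₂c : (B₂.card : ℝ) ≤ B.card := by exact_mod_cast card_le_card hB₂
  have d1 := hp₁ p (by omega) N L s X Y A B₁ hAN hX hY hAX (hB₁c.trans hBY) hL1 hL2 hL3 h72 h2s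
    q1 q2 (by rw [← hE]; exact hcl₁) χ hχ β hβ
  have d2 := hp₂ p (by omega) N L s X Y A B₂ hAN hX hY hAX (hB₂c.trans hBY) hL1 hL2 hL3 h72
    ((Real.rpow_le_rpow_of_exponent_le hp1 (by rw [hκ]; linarith)).trans hN) q3 q4
    (by rw [← hE]; exact hcl₂) χ hχ β hβ
  have hsum : ∑ n ∈ A, ‖∑ b ∈ B, β b * χ ((n : ZMod p) + b)‖ ≤
      ∑ n ∈ A, ‖∑ b ∈ B₁, β b * χ ((n : ZMod p) + b)‖ +
        ∑ n ∈ A, ‖∑ b ∈ B₂, β b * χ ((n : ZMod p) + b)‖ := by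
    rw [← sum_add_distrib]
    refine sum_le_sum fun n _ => ?_
    rw [hsplit]
    exact norm_add_le _ _
  have h20 : 20 * (p : ℝ) ^ (-(κ / 2)) ≤ (p : ℝ) ^ (-(κ / 4)) := by
    have h1 : (20 : ℝ) ≤ (p : ℝ) ^ (κ / 4) := hp₃ p (by omega)
    calc 20 * (p : ℝ) ^ (-(κ / 2)) ≤ (p : ℝ) ^ (κ / 4) * (p : ℝ) ^ (-(κ / 2)) :=
          mul_le_mul_of_nonneg_right h1 (by positivity)
      _ = (p : ℝ) ^ (-(κ / 4)) := by
          rw [← Real.rpow_add hp0]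
          congr 1
          ring
  calc ∑ n ∈ A, ‖∑ b ∈ B, β b * χ ((n : ZMod p) + b)‖
      ≤ 10 * (p : ℝ) ^ (-(κ / 2)) * (X * Y) + 10 * (p : ℝ) ^ (-(κ / 2)) * (X * Y) :=
        hsum.trans (add_le_add d1 d2)
    _ = 20 * (p : ℝ) ^ (-(κ / 2)) * (X * Y) := by ring
    _ ≤ (p : ℝ) ^ (-(κ / 4)) * (X * Y) := mul_le_mul_of_nonneg_right h20 (by positivity)
    _ ≤ (p : ℝ) ^ (-(κ / 4)) * (A.card * B.card) :=
        mul_le_mul_of_nonneg_left (mul_le_mul hXA hYB hY.le (Nat.cast_nonneg _)) (by positivity)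

end Pool.Agent.PJ
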