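import Pool.Agent.helper76.PJ.SPQG

/-!
# Row pj:SPQ (MP_f6e9a2_nt): sixth moment, sparse cells
-/

set_option autoImplicit false

open Finset

namespace Pool.Agent.PJ

open Pool.Agent.PY2

theorem SPQ (hMAX : MAX_stmt) (hNU2 : NU2_stmt) (hMO2 : MO2_stmt) (hMS2 : MS2_stmt)
    (hEN2 : EN2_stmt) (hNUG : NUG_stmt) (hHO2 : HO2_stmt) : SPQ_stmt := by
  intro p hp χ hχ N U n T D B hU hUN hNp hWp hT hD
  have hp0 : 0 < p := hp.out.pos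
  have hpr : (0 : ℝ) < p := by exact_mod_cast hp0
  have hW1 : 1 ≤ 2 ^ n := Nat.one_le_two_pow
  have h2U : 2 * U ≤ N := le_trans (Nat.le_mul_of_pos_left _ hW1) hUN
  have hUp : 2 * U < p := by omega
  have hT1 : 1 ≤ T := by
    have := hT 1 le_rfl hp0
    simpa using this
  have hT1' : (1 : ℝ) ≤ T := by exact_mod_cast hT1
  have hD0 : 0 ≤ D := le_trans (Nat.cast_nonneg _) (hD 0)
  have hWp' : 2 ^ n ≤ p := le_trans (Nat.le_self_pow (by norm_num) _) hWp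
  have hnu := hNU2 p χ 3 N U n B (by norm_num) hUp hUN
  have hho := hHO2 p (fun x y => (nu2 B (2 * N) U x y : ℝ)) (fun x y => mj 3 n (c2 χ x y)) 3
    (by norm_num) (fun x y => Nat.cast_nonneg _) (fun x y => (hMAX 3 n _ (by norm_num)).1)
  have hms := hMS2 p (2 * N) U B hUp
  have hen := hEN2 p (2 * N) U B hUp
  have hng := hNUG p B (2 * N) U T D hU (by omega) (by omega) hT hD
  have hmo := hMO2 p χ hχ 3 n (by norm_num) hWp'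
  push_cast at hms hng hen
  have hs0 : 0 ≤ ∑ z ∈ B ×ˢ B, ‖Gc χ N z.1 z.2‖ := Finset.sum_nonneg fun _ _ => norm_nonneg _
  have main := SPQG_arith 2 (U : ℝ) ((2 : ℝ) ^ n) (∑ z ∈ B ×ˢ B, ‖Gc χ N z.1 z.2‖) (N : ℝ)
    (B.card : ℝ) (p : ℝ) (((n : ℝ) + 1) ^ 7) (T : ℝ) D (2 ^ 7 * 765)
    (∑ x : ZMod p, ∑ y : ZMod p, (nu2 B (2 * N) U x y : ℝ) ^ 2)
    (∑ x : ZMod p, ∑ y : ZMod p, mj 3 n (c2 χ x y) ^ (2 * 3))
    (by exact_mod_cast hU) (by positivity) hpr (Nat.cast_nonneg _) (Nat.cast_nonneg _)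
    (by positivity) hT1' hD0 (by norm_num)
    (hen.trans (mul_le_mul_of_nonneg_left hng (Nat.cast_nonneg _)))
    (by
      refine hmo.trans ?_
      have h6 : ((2 : ℝ) ^ n) ^ 3 ≤ p := by exact_mod_cast hWp
      have h7 : (2 * ((3 : ℕ) : ℝ) * Real.sqrt p) ^ 2 = 36 * p := by
        rw [mul_pow, Real.sq_sqrt hpr.le]
        push_cast
        ring
      rw [h7]
      have h10 : 0 ≤ 36 * ((2 : ℝ) ^ n) ^ 3 * p := by positivity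
      have h9 : ((2 : ℝ) ^ n) ^ (2 * 3) * (36 * p) ≤ 36 * ((2 : ℝ) ^ n) ^ 3 * (p : ℝ) ^ 2 := by
        have := mul_le_mul_of_nonneg_left h6 h10
        calc _ = 36 * ((2 : ℝ) ^ n) ^ 3 * p * ((2 : ℝ) ^ n) ^ 3 := by ring
          _ ≤ _ := this
          _ = _ := by ring
      have h11 : (0 : ℝ) ≤ (2 * ((n : ℝ) + 1)) ^ (2 * 3 + 1) := by positivity
      calc (2 * ((n : ℝ) + 1)) ^ (2 * 3 + 1) *
            ((((3 : ℕ) : ℝ)) ^ (2 * 3) * ((2 : ℝ) ^ n) ^ 3 * (p : ℝ) ^ 2 +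
              ((2 : ℝ) ^ n) ^ (2 * 3) * (36 * p))
          ≤ (2 * ((n : ℝ) + 1)) ^ (2 * 3 + 1) *
            ((((3 : ℕ) : ℝ)) ^ (2 * 3) * ((2 : ℝ) ^ n) ^ 3 * (p : ℝ) ^ 2 +
              36 * ((2 : ℝ) ^ n) ^ 3 * (p : ℝ) ^ 2) :=
            mul_le_mul_of_nonneg_left (by linarith) h11
        _ = _ := by
          push_cast
          ring)
    (Finset.sum_nonneg fun x _ => Finset.sum_nonneg fun y _ => sq_nonneg _)
    (Finset.sum_nonneg fun x _ => Finset.sum_nonneg fun y _ =>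
      pow_nonneg (hMAX 3 n _ (by norm_num)).1 _)
    (by
      refine le_trans (pow_le_pow_left₀ (by positivity) hnu _) ?_
      refine hho.trans (le_of_eq ?_)
      rw [hms])
  have e8 : (8 : ℝ) ^ n = ((2 : ℝ) ^ n) ^ (2 + 1) := by
    rw [← pow_mul, mul_comm, pow_mul]
    norm_num
  rw [e8]
  refine main.trans ?_
  have hZ : 0 ≤ ((n : ℝ) + 1) ^ 7 * T * ((p : ℝ) * (N : ℝ) ^ 6 * (B.card : ℝ) ^ 11 +
      D * (p : ℝ) ^ 2 * (N : ℝ) ^ 5 * (B.card : ℝ) ^ 10 / U) := by positivity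
  calc (2 ^ 7 * 765 * 2 ^ (2 * 2) * (2 * 10 ^ 5)) * ((n : ℝ) + 1) ^ 7 * T *
        ((p : ℝ) * (N : ℝ) ^ (2 * (2 + 1)) * (B.card : ℝ) ^ (4 * 2 + 3) +
        D * (p : ℝ) ^ 2 * (N : ℝ) ^ (2 * 2 + 1) * (B.card : ℝ) ^ (4 * 2 + 2) / U)
      = (2 ^ 7 * 765 * 2 ^ (2 * 2) * (2 * 10 ^ 5)) * (((n : ℝ) + 1) ^ 7 * T *
        ((p : ℝ) * (N : ℝ) ^ 6 * (B.card : ℝ) ^ 11 +
        D * (p : ℝ) ^ 2 * (N : ℝ) ^ 5 * (B.card : ℝ) ^ 10 / U)) := by ring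
    _ ≤ 10 ^ 12 * (((n : ℝ) + 1) ^ 7 * T * ((p : ℝ) * (N : ℝ) ^ 6 * (B.card : ℝ) ^ 11 +
        D * (p : ℝ) ^ 2 * (N : ℝ) ^ 5 * (B.card : ℝ) ^ 10 / U)) :=
        mul_le_mul_of_nonneg_right (by norm_num) hZ
    _ = _ := by ring

end Pool.Agent.PJ
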